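import Pool.Agent.Lib.MP_28303a_al.HIG.Iface

/-! # ZCOMP: the subgroup of the machine letters is compatible with the letter `z` -/

set_option autoImplicit false

namespace Pool.Agent.NegK.Hig.H45

open Pool.Agent.NegK.Hig

/-- The words which are sent to the accepted elements. -/
def accW (m : Mach) : Subgroup (FreeGroup (Option Sg)) :=
  Subgroup.closure {x | ∃ w, m.Acc w ∧ x = pwd w * FreeGroup.of none * (pwd w)⁻¹}

theorem thet_mem_gen {K G : Type} [Group K] [Group G] (e : K →* G) (p : Sg → G) (H : Subgroup K)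
    (x : K) (hx : x ∈ H) (w : FreeGroup (Option Sg)) : thet (e x) p w ∈ gen e p H := by
  induction w using FreeGroup.induction_on with
  | C1 => rw [map_one]; exact one_mem _
  | of o =>
    cases o with
    | none =>
      have : thet (e x) p (FreeGroup.of none) = e x := by simp [thet]
      rw [this]
      exact gen_of e p hx
    | some a =>
      have : thet (e x) p (FreeGroup.of (some a)) = p a := by simp [thet]
      rw [this]
      exact gen_s e p H a
  | inv_of o ih => rw [map_inv]; exact inv_mem ih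
  | mul a b iha ihb => rw [map_mul]; exact mul_mem iha ihb

/-- The lemma for both systems of words. -/
theorem key (m : Mach) (h : m.Inj) (Gr : Type) [Group Gr] (e : m.K →* Gr)
    (r : m.Q × (m.J → ZMod 5) → Gr) (hr : IsHNN (m.rsys h) e r) (G1 : Type) [Group G1]
    (e1 : Gr →* G1) (p : Sg → G1) (hp : IsHNN ((m.psys h).push e hr.inj) e1 p)
    (H0 : Subgroup m.K) (hH0 : (m.rsys h).Compat H0) (u : List Sg → m.K)
    (hcomp : (m.psys h).Compat (Subgroup.closure (Set.range u)))
    (hint : Subgroup.closure (Set.range u) ⊓ H0 ≤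
      Subgroup.closure {x | ∃ w, m.Acc w ∧ x = u w})
    (hle : Subgroup.closure {x | ∃ w, m.Acc w ∧ x = u w} ≤ H0)
    (hconj : ∀ w : List Sg,
      thet (e1 (e (u []))) p (pwd w * FreeGroup.of none * (pwd w)⁻¹) = e1 (e (u w)))
    (hinj : Function.Injective (thet (e1 (e (u []))) p)) (w : FreeGroup (Option Sg)) :
    thet (e1 (e (u []))) p w ∈ (gen e r H0).map e1 ↔ w ∈ accW m := by
  have himg : (Subgroup.closure {x | ∃ w, m.Acc w ∧ x = u w}).map (e1.comp e) =
      (accW m).map (thet (e1 (e (u []))) p) := by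
    unfold accW
    rw [MonoidHom.map_closure, MonoidHom.map_closure]
    congr 1
    ext y
    constructor
    · rintro ⟨x, ⟨v, hv, rfl⟩, rfl⟩
      exact ⟨_, ⟨v, hv, rfl⟩, hconj v⟩
    · rintro ⟨x, ⟨v, hv, rfl⟩, rfl⟩
      exact ⟨_, ⟨v, hv, rfl⟩, (hconj v).symm⟩
  constructor
  · rintro ⟨g, hg, hgw⟩
    -- the element is in the group of `T1`
    have hc1 : ((m.psys h).push e hr.inj).Compat ((Subgroup.closure (Set.range u)).map e) := by
      intro a c
      have hi := hcomp a c
      constructor
      · intro hx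
        have hx' : e ((m.psys h).α a c) ∈ (Subgroup.closure (Set.range u)).map e := hx
        rw [Subgroup.mem_map_iff_mem hr.inj] at hx'
        show e ((m.psys h).β a c) ∈ (Subgroup.closure (Set.range u)).map e
        rw [Subgroup.mem_map_iff_mem hr.inj]
        exact hi.1 hx'
      · intro hx
        have hx' : e ((m.psys h).β a c) ∈ (Subgroup.closure (Set.range u)).map e := hx
        rw [Subgroup.mem_map_iff_mem hr.inj] at hx'
        show e ((m.psys h).α a c) ∈ (Subgroup.closure (Set.range u)).map e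
        rw [Subgroup.mem_map_iff_mem hr.inj]
        exact hi.2 hx'
    have hu0 : e (u []) ∈ (Subgroup.closure (Set.range u)).map e :=
      Subgroup.mem_map_of_mem e (Subgroup.subset_closure ⟨[], rfl⟩)
    have h1 : e1 g ∈ gen e1 p ((Subgroup.closure (Set.range u)).map e) := by
      rw [hgw]
      exact thet_mem_gen e1 p _ _ hu0 w
    obtain ⟨x, hx, hxg⟩ := hp.sub _ hc1 g h1
    have h2 : x ∈ H0 := by
      apply hr.sub H0 hH0 x
      rw [hxg]
      exact hg
    have h3 := hint ⟨hx, h2⟩
    have h4 : thet (e1 (e (u []))) p w ∈ (accW m).map (thet (e1 (e (u []))) p) := by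
      rw [← himg, ← hgw, ← hxg]
      exact ⟨x, h3, rfl⟩
    rwa [Subgroup.mem_map_iff_mem hinj] at h4
  · intro hw
    have h1 : thet (e1 (e (u []))) p w ∈ (accW m).map (thet (e1 (e (u []))) p) :=
      Subgroup.mem_map_of_mem _ hw
    rw [← himg] at h1
    obtain ⟨x, hx, hxw⟩ := h1
    rw [← hxw]
    exact ⟨e x, gen_of e r (hle hx), rfl⟩

theorem zcomp (hrc : RcompStatement) (hpc : PcompStatement) (hint : IntStatement)
    (hcj : ConjStatement) (hpf : PfreeStatement) : ZcompStatement := by
  intro m h N hN Gr _ e r hr G1 _ e1 p hp w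
  obtain ⟨i1, i2, i3, i4, -⟩ := hint m N hN
  obtain ⟨c1, c2⟩ := hpc m h
  obtain ⟨f1, f2⟩ := hpf m h Gr e hr.inj G1 e1 p hp
  have k1 := key m h Gr e r hr G1 e1 p hp (m.H0 N) (hrc m h N) m.tw c1 i1 i3
    (fun w => (hcj m h Gr e hr.inj G1 e1 p hp w).1) f1 w
  have k2 := key m h Gr e r hr G1 e1 p hp (m.H0 N) (hrc m h N) m.vw c2 i2 i4
    (fun w => (hcj m h Gr e hr.inj G1 e1 p hp w).2) f2 w
  exact k1.trans k2.symm

end Pool.Agent.NegK.Hig.H45
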